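import Pool.Agent.Lib.MP_6d476a_gt.Core

set_option autoImplicit false

open Set Filter Topology Function

namespace Pool.Agent.Lib.MP_6d476a_gt

/-- A function on the Baire space with countably many discontinuities is of the first
Baire class. -/
lemma baire_one_of_countable {g : (ℕ → ℕ) → ℝ} (hg : {x | ¬ ContinuousAt g x}.Countable) :
    ∃ u : ℕ → (ℕ → ℕ) → ℝ, (∀ n, Continuous (u n)) ∧
      ∀ x, Tendsto (fun n => u n x) atTop (𝓝 (g x)) := by
  classical
  obtain ⟨e, he⟩ := Set.countable_iff_exists_subset_range.1 hg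
  -- retraction from finite words
  let ρ : (n : ℕ) → (Fin n → ℕ) → (ℕ → ℕ) := fun n s =>
    if h : ∃ i, ∀ k : Fin n, e i k = s k then e (Nat.find h)
    else fun k => if hk : k < n then s ⟨k, hk⟩ else 0
  have hρ : ∀ n s (k : Fin n), ρ n s k = s k := by
    intro n s k
    simp only [ρ]
    split_ifs with h
    · exact Nat.find_spec h k
    · simp
  refine ⟨fun n x => g (ρ n fun k => x k), fun n => ?_, fun x => ?_⟩
  · have h1 : Continuous fun s : Fin n → ℕ => g (ρ n s) := continuous_of_discreteTopology
    exact h1.comp (continuous_pi fun k => continuous_apply (k : ℕ))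
  · by_cases hx : ∃ i, e i = x
    · refine tendsto_const_nhds.congr' ?_
      have hev : ∀ i, i < Nat.find hx → ∀ᶠ n in atTop, ¬ ∀ k : Fin n, e i k = x k := by
        intro i hi
        have hne := Nat.find_min hx hi
        obtain ⟨k, hk⟩ := Function.ne_iff.1 hne
        filter_upwards [eventually_gt_atTop k] with n hn hall using hk (hall ⟨k, hn⟩)
      filter_upwards [(eventually_all_finite (finite_Iio (Nat.find hx))).2 hev] with n hn
      have hex : ∃ i, ∀ k : Fin n, e i k = x k := ⟨Nat.find hx, fun k => by rw [Nat.find_spec hx]⟩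
      have h1 : Nat.find hex = Nat.find hx := by
        rw [Nat.find_eq_iff]
        exact ⟨fun k => by rw [Nat.find_spec hx], fun i hi => hn i hi⟩
      simp only [ρ]
      rw [dif_pos hex, h1, Nat.find_spec hx]
    · have hc : ContinuousAt g x := by
        by_contra hcon
        exact hx (he hcon)
      refine hc.tendsto.comp ?_
      rw [tendsto_pi_nhds]
      intro k
      refine tendsto_const_nhds.congr' ?_
      filter_upwards [eventually_gt_atTop k] with n hn
      exact (hρ n (fun k => x k) ⟨k, hn⟩).symm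

lemma exists_injection : ∃ ι : (ℕ → ℕ) → ℝ, Continuous ι ∧ Injective ι := by
  obtain ⟨f, -, hf1, hf2⟩ :=
    (isClosed_univ (X := ℝ)).exists_nat_bool_injection_of_not_countable Set.not_countable_univ
  let j : (ℕ → ℕ) → (ℕ → Bool) := fun x k => decide (x (Nat.unpair k).1 = (Nat.unpair k).2)
  have hj1 : Continuous j := by
    refine continuous_pi fun k => ?_
    have h1 : Continuous fun m : ℕ => decide (m = (Nat.unpair k).2) :=
      continuous_of_discreteTopology
    exact h1.comp (continuous_apply (Nat.unpair k).1)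
  have hj2 : Injective j := by
    intro x x' h
    funext a
    have := congrFun h (Nat.pair a (x a))
    simp only [j, Nat.unpair_pair, decide_true] at this
    exact (of_decide_eq_true this.symm).symm
  exact ⟨f ∘ j, hf1.comp hj1, hf2.comp hj2⟩

/-- The Helly space, pulled back to the Baire space, is a compact set of first Baire class
functions that does not embed in the scatteredly continuous functions. -/
theorem not_embeds :
    ∃ S : Set ((ℕ → ℕ) → ℝ), IsCompact S ∧
      (∀ f ∈ S, ∃ u : ℕ → (ℕ → ℕ) → ℝ, (∀ n, Continuous (u n)) ∧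
          ∀ x, Tendsto (fun n => u n x) atTop (𝓝 (f x))) ∧
      ∀ T : Set ((ℕ → ℕ) → ℝ),
        (∀ g ∈ T, ∀ A : Set (ℕ → ℕ), A.Nonempty → ∃ a ∈ A, ContinuousWithinAt g A a) →
        ¬ Nonempty (S ≃ₜ T) := by
  classical
  obtain ⟨ι, hι1, hι2⟩ := exists_injection
  set Ψ : (ℝ → ℝ) → ((ℕ → ℕ) → ℝ) := fun f => f ∘ ι with hΨ
  have hΨc : Continuous Ψ := continuous_pi fun x => continuous_apply (ι x)
  refine ⟨Ψ '' Helly, isCompact_Helly.image hΨc, ?_, ?_⟩
  · rintro _ ⟨f, hf, rfl⟩
    refine baire_one_of_countable ?_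
    refine (hf.1.countable_not_continuousAt.preimage_of_injOn (f := ι) hι2.injOn).mono ?_
    intro x hx hcon
    exact hx (hcon.comp hι1.continuousAt)
  · rintro T hT ⟨e⟩
    set φ : (ℕ → ℕ) → (ℝ → ℝ) → ℝ := fun z f =>
      if h : f ∈ Helly then (e ⟨Ψ f, mem_image_of_mem Ψ h⟩).1 z else 0 with hφdef
    have hφ : ∀ z, ContinuousOn (φ z) Helly := by
      intro z
      rw [continuousOn_iff_continuous_domRestrict]
      have : Helly.domRestrict (φ z) =
          fun f : Helly => (e ⟨Ψ f.1, mem_image_of_mem Ψ f.2⟩).1 z := by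
        funext f
        simp only [domRestrict_apply, hφdef, dif_pos f.2]
      rw [this]
      exact (continuous_apply z).comp (continuous_subtype_val.comp (e.continuous.comp
        ((hΨc.comp continuous_subtype_val).subtype_mk _)))
    have hL : ¬ (range ι).Countable := by
      intro hcon
      have h1 : (univ : Set (ℕ → ℕ)).Countable := by
        have := hcon.preimage_of_injOn (f := ι) hι2.injOn
        rwa [preimage_range] at this
      have h2 : Uncountable (ℕ → ℕ) := by
        obtain ⟨π, -, hπ⟩ := PolishSpace.exists_nat_nat_continuous_surjective ℝ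
        exact hπ.uncountable
      exact Set.not_countable_univ h1
    have h0 : (0 : ℝ → ℝ) ∈ Helly := ⟨monotone_const, fun _ => ⟨le_rfl, zero_le_one⟩⟩
    have hsep : ∀ x ∈ range ι, ∃ z, φ z (bump 0 x 1) ≠ φ z (update (bump 0 x 1) x 0) := by
      rintro _ ⟨p, rfl⟩
      have hm1 : bump 0 (ι p) 1 ∈ Helly := bump_mem h0 _ ⟨zero_le_one, le_rfl⟩
      have hl : ∀ᶠ w in 𝓝[<] (ι p), bump 0 (ι p) 1 w = 0 := by
        filter_upwards [self_mem_nhdsWithin] with w hw
        rw [bump_eq_of_lt _ _ hw]; rfl
      have hm2 : update (bump 0 (ι p) 1) (ι p) 0 ∈ Helly :=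
        update_mem hm1 hl ⟨le_rfl, (hm1.2 _).1⟩
      by_contra hcon
      push Not at hcon
      have h1 : e ⟨Ψ _, mem_image_of_mem Ψ hm1⟩ = e ⟨Ψ _, mem_image_of_mem Ψ hm2⟩ := by
        apply Subtype.ext
        funext z
        have := hcon z
        simp only [hφdef, dif_pos hm1, dif_pos hm2] at this
        exact this
      have h2 := congrFun (congrArg Subtype.val (e.injective h1)) p
      simp [hΨ, bump] at h2
    let _ : PseudoMetricSpace (ℕ → ℕ) := TopologicalSpace.pseudoMetrizableSpacePseudoMetric (ℕ → ℕ)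
    obtain ⟨g, hg, B, hB, hB'⟩ := core (Y := ℕ → ℕ) hφ hL hsep
    obtain ⟨b, hb, hcont⟩ := hT _ (e ⟨Ψ g, mem_image_of_mem Ψ hg⟩).2 B hB
    refine hB' b hb ?_
    have : (fun z => φ z g) = (e ⟨Ψ g, mem_image_of_mem Ψ hg⟩).1 := by
      funext z
      simp only [hφdef, dif_pos hg]
    rw [this]
    exact hcont

end Pool.Agent.Lib.MP_6d476a_gt
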