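import Mathlib

set_option autoImplicit false

open Set Filter Topology Function

namespace Pool.Agent.Lib.MP_6d476a_gt

/-- The Helly space: monotone maps from the line to the unit interval. -/
def Helly : Set (ℝ → ℝ) := {f | Monotone f ∧ ∀ w, f w ∈ Icc (0 : ℝ) 1}

lemma isClosed_Helly : IsClosed Helly := by
  have h1 : IsClosed {f : ℝ → ℝ | Monotone f} := by
    have : {f : ℝ → ℝ | Monotone f} = ⋂ a : ℝ, ⋂ b : ℝ, ⋂ _ : a ≤ b, {f | f a ≤ f b} := by
      ext f; simp only [mem_ofPred_eq, mem_iInter]; rfl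
    rw [this]
    refine isClosed_iInter fun a => isClosed_iInter fun b => isClosed_iInter fun _ => ?_
    exact isClosed_le (continuous_apply a) (continuous_apply b)
  have h2 : IsClosed {f : ℝ → ℝ | ∀ w, f w ∈ Icc (0 : ℝ) 1} := by
    have : {f : ℝ → ℝ | ∀ w, f w ∈ Icc (0 : ℝ) 1} = ⋂ w : ℝ, (fun f : ℝ → ℝ => f w) ⁻¹' Icc 0 1 := by
      ext f; simp only [mem_ofPred_eq, mem_iInter, mem_preimage]
    rw [this]
    exact isClosed_iInter fun w => isClosed_Icc.preimage (continuous_apply w)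
  exact h1.inter h2

lemma isCompact_Helly : IsCompact Helly := by
  have h : IsCompact (Set.pi univ fun _ : ℝ => Icc (0 : ℝ) 1) :=
    isCompact_univ_pi fun _ => isCompact_Icc
  refine h.of_isClosed_subset isClosed_Helly ?_
  intro f hf w _
  exact hf.2 w

/-- Raise `f` to at least `c` on the half line starting at `x`. -/
noncomputable def bump (f : ℝ → ℝ) (x c : ℝ) : ℝ → ℝ :=
  fun w => if x ≤ w then max (f w) c else f w

lemma le_bump (f : ℝ → ℝ) (x c : ℝ) : f ≤ bump f x c := by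
  intro w; unfold bump; split_ifs
  · exact le_max_left _ _
  · exact le_rfl

lemma bump_mem {f : ℝ → ℝ} (hf : f ∈ Helly) (x : ℝ) {c : ℝ} (hc : c ∈ Icc (0 : ℝ) 1) :
    bump f x c ∈ Helly := by
  refine ⟨fun a b hab => ?_, fun w => ?_⟩
  · unfold bump
    by_cases ha : x ≤ a
    · rw [if_pos ha, if_pos (ha.trans hab)]
      exact max_le_max (hf.1 hab) le_rfl
    · rw [if_neg ha]
      split_ifs
      · exact (hf.1 hab).trans (le_max_left _ _)
      · exact hf.1 hab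
  · unfold bump
    split_ifs
    · exact ⟨(hf.2 w).1.trans (le_max_left _ _), max_le (hf.2 w).2 hc.2⟩
    · exact hf.2 w

lemma bump_eq_of_lt (f : ℝ → ℝ) {x w : ℝ} (c : ℝ) (h : w < x) : bump f x c w = f w := by
  unfold bump; rw [if_neg (not_le.2 h)]

lemma bump_eq_of_ge {f : ℝ → ℝ} (hf : f ∈ Helly) {x w c : ℝ} (x' : ℝ) (hc : c ≤ f x)
    (h : x ≤ w) : bump f x' c w = f w := by
  unfold bump; split_ifs
  · exact max_eq_left (hc.trans (hf.1 h))
  · rfl

lemma tendsto_bump {f : ℝ → ℝ} (hf : f ∈ Helly) {x c : ℝ} (hc : c ≤ f x) :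
    Tendsto (fun x' => bump f x' c) (𝓝[<] x) (𝓝 f) := by
  rw [tendsto_pi_nhds]
  intro w
  rcases lt_or_ge w x with h | h
  · refine tendsto_const_nhds.congr' ?_
    filter_upwards [Ioo_mem_nhdsLT h] with x' hx'
    exact (bump_eq_of_lt f c hx'.1).symm
  · refine tendsto_const_nhds.congr' (Eventually.of_forall fun x' => ?_)
    exact (bump_eq_of_ge hf x' hc h).symm

lemma left_facts {f : ℝ → ℝ} (hf : f ∈ Helly) {x a : ℝ} (ha : ∀ᶠ w in 𝓝[<] x, f w = a) :
    (∀ w, w < x → f w ≤ a) ∧ a ≤ f x ∧ 0 ≤ a := by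
  refine ⟨fun w hw => ?_, ?_, ?_⟩
  · obtain ⟨z, hz1, hz2⟩ := (ha.and (Ioo_mem_nhdsLT hw)).exists
    exact hz1 ▸ hf.1 hz2.1.le
  · obtain ⟨z, hz1, hz2⟩ := (ha.and self_mem_nhdsWithin).exists
    exact hz1 ▸ hf.1 (le_of_lt hz2)
  · obtain ⟨z, hz1⟩ := ha.exists
    exact hz1 ▸ (hf.2 z).1

lemma update_mem {f : ℝ → ℝ} (hf : f ∈ Helly) {x a t : ℝ} (ha : ∀ᶠ w in 𝓝[<] x, f w = a)
    (ht : t ∈ Icc a (f x)) : update f x t ∈ Helly := by
  obtain ⟨h1, -, h3⟩ := left_facts hf ha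
  refine ⟨fun v w hvw => ?_, fun w => ?_⟩
  · by_cases hv : v = x
    · by_cases hw : w = x
      · rw [hv, hw]
      · rw [hv, update_self, update_of_ne hw]
        exact ht.2.trans (hf.1 (hv ▸ hvw))
    · rw [update_of_ne hv]
      by_cases hw : w = x
      · rw [hw, update_self]
        exact (h1 v (lt_of_le_of_ne (hw ▸ hvw) hv)).trans ht.1
      · rw [update_of_ne hw]; exact hf.1 hvw
  · by_cases hw : w = x
    · rw [hw, update_self]
      exact ⟨h3.trans ht.1, ht.2.trans (hf.2 x).2⟩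
    · rw [update_of_ne hw]; exact hf.2 w

/-- A continuous function on the Helly space depends, up to a small error, on finitely many
coordinates. -/
lemma exists_determining {ψ : (ℝ → ℝ) → ℝ} (hψ : ContinuousOn ψ Helly) {ε : ℝ} (hε : 0 < ε) :
    ∃ F : Finset ℝ, ∀ g ∈ Helly, ∀ g' ∈ Helly, (∀ w ∈ F, g w = g' w) → |ψ g - ψ g'| ≤ ε := by
  have hK : IsCompact (Helly ×ˢ Helly) := isCompact_Helly.prod isCompact_Helly
  have hc : ContinuousOn (fun p : (ℝ → ℝ) × (ℝ → ℝ) => |ψ p.1 - ψ p.2|) (Helly ×ˢ Helly) := by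
    refine ContinuousOn.abs (ContinuousOn.sub ?_ ?_)
    · exact hψ.comp continuousOn_fst fun p hp => hp.1
    · exact hψ.comp continuousOn_snd fun p hp => hp.2
  have hcl : IsClosed ((Helly ×ˢ Helly) ∩
      (fun p : (ℝ → ℝ) × (ℝ → ℝ) => |ψ p.1 - ψ p.2|) ⁻¹' Ici ε) :=
    hc.preimage_isClosed_of_isClosed (isClosed_Helly.prod isClosed_Helly) isClosed_Ici
  have hK' := hK.of_isClosed_subset hcl inter_subset_left
  obtain ⟨F, hF⟩ := hK'.elim_finite_subfamily_closed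
    (fun w : ℝ => {p : (ℝ → ℝ) × (ℝ → ℝ) | p.1 w = p.2 w})
    (fun w => isClosed_eq ((continuous_apply w).comp continuous_fst)
      ((continuous_apply w).comp continuous_snd)) (by
      rw [eq_empty_iff_forall_notMem]
      rintro ⟨g, g'⟩ ⟨⟨-, h2⟩, h3⟩
      have : g = g' := funext fun w => by simpa using (mem_iInter.1 h3) w
      subst this
      simp at h2
      linarith)
  refine ⟨F, fun g hg g' hg' h => ?_⟩
  by_contra hcon
  push Not at hcon
  have : (g, g') ∈ (Helly ×ˢ Helly ∩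
      (fun p : (ℝ → ℝ) × (ℝ → ℝ) => |ψ p.1 - ψ p.2|) ⁻¹' Ici ε) ∩
      ⋂ i ∈ F, {p : (ℝ → ℝ) × (ℝ → ℝ) | p.1 i = p.2 i} :=
    ⟨⟨⟨hg, hg'⟩, hcon.le⟩, mem_iInter₂.2 h⟩
  rw [hF] at this
  exact this

/-- All but countably many points of a set of reals are left condensation points of it. -/
lemma countable_not_cond (W : Set ℝ) :
    {x | x ∈ W ∧ ∃ w, w < x ∧ (W ∩ Ioo w x).Countable}.Countable := by
  classical
  set W0 : Set ℝ := {x | x ∈ W ∧ ∀ p q : ℚ, x ∈ Ioo (p : ℝ) q → ¬ (W ∩ Ioo (p : ℝ) q).Countable}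
    with hW0
  have h1 : (⋃ p : ℚ, ⋃ q : ℚ, ⋃ _ : (W ∩ Ioo (p : ℝ) q).Countable, W ∩ Ioo (p : ℝ) q).Countable :=
    countable_iUnion fun p => countable_iUnion fun q => countable_iUnion fun h => h
  have h2 := countable_setOfPred_isolated_left_within (α := ℝ) (s := W0)
  refine (h1.union h2).mono ?_
  rintro x ⟨hxW, w, hw, hc⟩
  by_cases hx0 : x ∈ W0
  · right
    refine ⟨hx0, ?_⟩
    by_contra hne
    have hne' : (𝓝[W0 ∩ Iio x] x).NeBot := ⟨hne⟩
    have hmem : Ioi w ∈ 𝓝[W0 ∩ Iio x] x := mem_nhdsWithin_of_mem_nhds (Ioi_mem_nhds hw)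
    obtain ⟨z, hz1, hz2, hz3⟩ := hne'.nonempty_of_mem (inter_mem hmem self_mem_nhdsWithin)
    obtain ⟨p, hp1, hp2⟩ := exists_rat_btwn (show w < z from hz1)
    obtain ⟨q, hq1, hq2⟩ := exists_rat_btwn (show z < x from hz3)
    refine hz2.2 p q ⟨hp2, hq1⟩ (hc.mono ?_)
    exact inter_subset_inter_right _ (Ioo_subset_Ioo hp1.le hq2.le)
  · left
    simp only [hW0, mem_ofPred_eq, not_and, not_forall, not_not] at hx0
    obtain ⟨p, q, h3, h4⟩ := hx0 hxW
    simp only [mem_iUnion]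
    exact ⟨p, q, h4, hxW, h3⟩

/-- Splitting a jump: a rational value in the jump interval. -/
lemma exists_rat_split {h : ℝ → ℝ} {a b δ : ℝ} (hab : a ≤ b) (hh : ContinuousOn h (Icc a b))
    (hδ0 : 0 < δ) (hδ : δ < |h b - h a|) :
    ∃ c : ℚ, (c : ℝ) ∈ Ioo a b ∧ h c ≠ h a ∧ δ < |h b - h c| := by
  have hab' : a < b := by
    rcases hab.lt_or_eq with h1 | h1
    · exact h1
    · subst h1; simp at hδ; linarith
  -- a first real point
  have key : ∃ t ∈ Icc a b, h t ≠ h a ∧ δ < |h b - h t| := by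
    set η := (|h b - h a| - δ) / 2 with hη
    have hη0 : 0 < η := by rw [hη]; linarith
    rcases le_total (h a) (h b) with hle | hle
    · have habs : |h b - h a| = h b - h a := abs_of_nonneg (by linarith)
      obtain ⟨t, ht, hv⟩ := intermediate_value_Icc hab hh
        (show h a + η ∈ Icc (h a) (h b) from ⟨by linarith, by rw [hη, habs]; linarith⟩)
      refine ⟨t, ht, by rw [hv]; linarith, ?_⟩
      rw [hv]; refine lt_of_lt_of_le ?_ (le_abs_self _)
      rw [hη, habs]; rw [habs] at hδ; linarith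
    · have habs : |h b - h a| = h a - h b := by rw [abs_sub_comm]; exact abs_of_nonneg (by linarith)
      obtain ⟨t, ht, hv⟩ := intermediate_value_Icc' hab hh
        (show h a - η ∈ Icc (h b) (h a) from ⟨by rw [hη, habs]; linarith, by linarith⟩)
      refine ⟨t, ht, by rw [hv]; linarith, ?_⟩
      rw [hv, abs_sub_comm]; refine lt_of_lt_of_le ?_ (le_abs_self _)
      rw [hη, habs]; rw [habs] at hδ; linarith
  obtain ⟨t, ht, h1, h2⟩ := key
  have hct := hh t ht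
  have e1 : ∀ᶠ s in 𝓝[Icc a b] t, h s ≠ h a := hct.eventually_ne h1
  have e2 : ∀ᶠ s in 𝓝[Icc a b] t, δ < |h b - h s| :=
    (((continuousWithinAt_const (b := h b)).sub hct).abs).eventually (lt_mem_nhds h2)
  have hcl : t ∈ closure (Ioo a b ∩ range ((↑) : ℚ → ℝ)) := by
    have h3 : Ioo a b ⊆ closure (Ioo a b ∩ range ((↑) : ℚ → ℝ)) :=
      Rat.denseRange_cast.open_subset_closure_inter isOpen_Ioo
    have h4 : t ∈ closure (Ioo a b) := by rw [closure_Ioo hab'.ne]; exact ht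
    exact (closure_minimal h3 isClosed_closure) h4
  have hne : (𝓝[Ioo a b ∩ range ((↑) : ℚ → ℝ)] t).NeBot := mem_closure_iff_nhdsWithin_neBot.1 hcl
  have hle : 𝓝[Ioo a b ∩ range ((↑) : ℚ → ℝ)] t ≤ 𝓝[Icc a b] t :=
    nhdsWithin_mono _ (inter_subset_left.trans Ioo_subset_Icc_self)
  obtain ⟨s, ⟨hs1, hs2⟩, hs3, c, rfl⟩ :=
    (((e1.and e2).filter_mono hle).and self_mem_nhdsWithin).exists
  exact ⟨c, hs3, hs1, hs2⟩

/-- Rational interval around a point missing the other points of a finite set. -/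
lemma exists_rat_interval (F : Finset ℝ) (x : ℝ) :
    ∃ p q : ℚ, (p : ℝ) < x ∧ x < q ∧ ∀ w ∈ F, w ≠ x → w ∉ Ioo (p : ℝ) q := by
  classical
  have hcl : IsClosed ((F.erase x : Finset ℝ) : Set ℝ) := (F.erase x).finite_toSet.isClosed
  have hx : x ∈ ((F.erase x : Finset ℝ) : Set ℝ)ᶜ := by simp
  obtain ⟨l, u, hxlu, hsub⟩ := mem_nhds_iff_exists_Ioo_subset.1 (hcl.isOpen_compl.mem_nhds hx)
  obtain ⟨p, hp1, hp2⟩ := exists_rat_btwn hxlu.1
  obtain ⟨q, hq1, hq2⟩ := exists_rat_btwn hxlu.2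
  refine ⟨p, q, hp2, hq1, fun w hw hwx hmem => ?_⟩
  have := hsub ⟨hp1.trans hmem.1, hmem.2.trans hq2⟩
  exact this (by simp [hw, hwx])

end Pool.Agent.Lib.MP_6d476a_gt
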