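import Pool.Agent.Lib.MP_6d476a_gt.Basic

set_option autoImplicit false

open Set Filter Topology Function

namespace Pool.Agent.Lib.MP_6d476a_gt

/-- Complement of finitely many rational intervals. -/
def Gset (s : List (ℚ × ℚ × ℚ)) : Set ℝ := {w | ∀ e ∈ s, w ∉ Ioo (e.1 : ℝ) e.2.1}

/-- The function `u` raised at finitely many rational places to rational heights. -/
noncomputable def pat (u : ℝ → ℝ) : List (ℚ × ℚ × ℚ) → ℝ → ℝ
  | [] => u
  | e :: s => bump (pat u s) e.2.1 e.2.2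

lemma mem_Gset_cons {e : ℚ × ℚ × ℚ} {s : List (ℚ × ℚ × ℚ)} {w : ℝ} :
    w ∈ Gset (e :: s) ↔ w ∉ Ioo (e.1 : ℝ) e.2.1 ∧ w ∈ Gset s := by
  simp only [Gset, mem_ofPred_eq, List.forall_mem_cons]

lemma bump_eq_pat {f u : ℝ → ℝ} {s : List (ℚ × ℚ × ℚ)} {p q c : ℚ} {x : ℝ}
    (hp : (p : ℝ) < x) (hq : x < q) {w : ℝ} (hw : w ∉ Ioo (p : ℝ) q) (h : f w = pat u s w) :
    bump f x c w = pat u ((p, q, c) :: s) w := by
  have hiff : x ≤ w ↔ (q : ℝ) ≤ w := by
    constructor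
    · intro h1
      by_contra h2
      exact hw ⟨hp.trans_le h1, not_le.1 h2⟩
    · intro h1; exact hq.le.trans h1
  simp only [pat, bump, hiff, h]

/-- The countable type of tests. -/
abbrev Test := List (ℚ × ℚ × ℚ) × ℚ × ℚ × ℚ × ℚ × ℚ × ℕ × ℚ

variable {Y : Type*} [PseudoMetricSpace Y]

/-- Points passing a test. -/
def Wset (φ : Y → (ℝ → ℝ) → ℝ) (y : ℝ → Y) (d : ℕ → Y) (u : ℝ → ℝ) (τ : Test) : Set ℝ :=
  {x | dist (y x) (d τ.2.2.2.2.2.2.1) < τ.2.2.2.2.2.2.2 ∧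
    ∀ g ∈ Helly, (∀ w ∈ Gset τ.1, g w = pat u τ.1 w) →
      (g x = τ.2.1 → |φ (y x) g - τ.2.2.1| ≤ τ.2.2.2.2.2.1) ∧
      (g x = τ.2.2.2.1 → |φ (y x) g - τ.2.2.2.2.1| ≤ τ.2.2.2.2.2.1)}

/-- `x` is a left condensation point of every test set containing it. -/
def Good (φ : Y → (ℝ → ℝ) → ℝ) (y : ℝ → Y) (d : ℕ → Y) (u : ℝ → ℝ) (x : ℝ) : Prop :=
  ∀ τ : Test, x ∈ Wset φ y d u τ → ∀ w, w < x → ¬ (Wset φ y d u τ ∩ Ioo w x).Countable

lemma countable_bad (φ : Y → (ℝ → ℝ) → ℝ) (y : ℝ → Y) (d : ℕ → Y) (u : ℝ → ℝ) :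
    {x | ¬ Good φ y d u x}.Countable := by
  refine (countable_iUnion fun τ : Test => countable_not_cond (Wset φ y d u τ)).mono ?_
  intro x hx
  simp only [Good, mem_ofPred_eq, not_forall, not_not] at hx
  obtain ⟨τ, h1, w, h2, h3⟩ := hx
  exact mem_iUnion.2 ⟨τ, h1, w, h2, h3⟩

/-- A stage of the construction. -/
structure St where
  f : ℝ → ℝ
  x : ℕ → ℝ
  u : ℕ → ℝ → ℝ
  δ : ℕ → ℝ

/-- The invariant kept along the construction. -/
structure Inv (φ : Y → (ℝ → ℝ) → ℝ) (y : ℝ → Y) (d : ℕ → Y) (D : ℝ → Set ℝ) (n : ℕ) (S : St) :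
    Prop where
  hf : S.f ∈ Helly
  hδ : ∀ k, k ≤ n → 0 < S.δ k
  hinj : ∀ k, k ≤ n → ∀ l, l ≤ n → S.x k = S.x l → k = l
  hgood : ∀ k, k ≤ n → Good φ y d (S.u k) (S.x k)
  hleft : ∀ k, k ≤ n → ∃ a : ℚ, (∀ᶠ w in 𝓝[<] (S.x k), S.f w = a) ∧
    S.δ k < |φ (y (S.x k)) S.f - φ (y (S.x k)) (update S.f (S.x k) a)|
  hpat : ∀ k, k ≤ n → ∀ F : Finset ℝ, (F : Set ℝ) ⊆ D (S.x k) → ∃ s : List (ℚ × ℚ × ℚ),
    (∀ w ∈ F, w ≠ S.x k → w ∈ Gset s) ∧ (∀ᶠ w in 𝓝 (S.x k), w ∉ Gset s) ∧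
      ∀ w ∈ Gset s, S.f w = pat (S.u k) s w
  hchild : ∀ k, k < n →
    S.δ (Nat.unpair k).1 < |φ (y (S.x (k + 1))) S.f - φ (y (S.x (Nat.unpair k).1)) S.f| ∧
      dist (y (S.x (k + 1))) (y (S.x (Nat.unpair k).1)) < 1 / ((k : ℝ) + 1)

lemma tendsto_phi {ψ : (ℝ → ℝ) → ℝ} (hψ : ContinuousOn ψ Helly) {l : Filter ℝ}
    {g : ℝ → ℝ → ℝ} {f : ℝ → ℝ} (hf : f ∈ Helly) (hg : ∀ᶠ t in l, g t ∈ Helly)
    (ht : Tendsto g l (𝓝 f)) : Tendsto (fun t => ψ (g t)) l (𝓝 (ψ f)) :=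
  (hψ f hf).tendsto.comp (tendsto_nhdsWithin_iff.2 ⟨ht, hg⟩)

lemma step {φ : Y → (ℝ → ℝ) → ℝ} {y : ℝ → Y} {d : ℕ → Y} {D : ℝ → Set ℝ}
    (hφ : ∀ z, ContinuousOn (φ z) Helly) (hd : DenseRange d)
    (hDc : ∀ x, (D x).Countable) (hDx : ∀ x, x ∈ D x)
    (hDdet : ∀ x, ∀ ε : ℝ, 0 < ε → ∃ F : Finset ℝ, (F : Set ℝ) ⊆ D x ∧
      ∀ g ∈ Helly, ∀ g' ∈ Helly, (∀ w ∈ F, g w = g' w) → |φ (y x) g - φ (y x) g'| ≤ ε)
    (n : ℕ) (S : St) (hS : Inv φ y d D n S) :
    ∃ S' : St, Inv φ y d D (n + 1) S' ∧ S.f ≤ S'.f ∧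
      ∀ k, k ≤ n → S'.x k = S.x k ∧ S'.δ k = S.δ k := by
  classical
  set i := (Nat.unpair n).1 with hi
  have hin : i ≤ n := Nat.unpair_left_le n
  set x := S.x i with hx
  set f := S.f with hfdef
  have hf : f ∈ Helly := hS.hf
  choose! A hA1 hA2 using hS.hleft
  set a : ℚ := A i with ha
  have ha1 : ∀ᶠ w in 𝓝[<] x, f w = a := hA1 i hin
  have ha2 : S.δ i < |φ (y x) f - φ (y x) (update f x a)| := hA2 i hin
  obtain ⟨hl1, hl2, hl3⟩ := left_facts hf ha1
  set h : ℝ → ℝ := fun t => φ (y x) (update f x t) with hh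
  have hcont : ContinuousOn h (Icc a (f x)) := by
    refine (hφ (y x)).comp (f := fun t => update f x t) ?_ fun t ht => update_mem hf ha1 ht
    exact ((continuous_const (y := f)).update x continuous_id).continuousOn
  have hb : h (f x) = φ (y x) f := by simp only [hh, update_eq_self]
  obtain ⟨c, hc1, hc2, hc3⟩ := exists_rat_split hl2 hcont (hS.hδ i hin) (by rw [hb]; exact ha2)
  rw [hb] at hc3
  have hc01 : (c : ℝ) ∈ Icc (0 : ℝ) 1 := ⟨hl3.trans hc1.1.le, hc1.2.le.trans (hf.2 x).2⟩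
  have hca : 0 < |h c - h a| := abs_pos.2 (sub_ne_zero.2 hc2)
  obtain ⟨ε, hε0, hε1⟩ := exists_rat_btwn
    (show (0 : ℝ) < min (|h c - h a| / 10) ((|φ (y x) f - h c| - S.δ i) / 10) from
      lt_min (by linarith) (by linarith))
  have hε2 : (ε : ℝ) < |h c - h a| / 10 := hε1.trans_le (min_le_left _ _)
  have hε3 : (ε : ℝ) < (|φ (y x) f - h c| - S.δ i) / 10 := hε1.trans_le (min_le_right _ _)
  obtain ⟨F, hFD, hF⟩ := hDdet x ε hε0
  obtain ⟨s, hs1, hs2, hs3⟩ := hS.hpat i hin F hFD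
  obtain ⟨r1, hr1⟩ := exists_rat_near (h a) hε0
  obtain ⟨r2, hr2⟩ := exists_rat_near (h c) hε0
  set η : ℚ := 1 / (2 * ((n : ℚ) + 1)) with hη
  have hηR : (η : ℝ) = 1 / (2 * ((n : ℝ) + 1)) := by rw [hη]; push_cast; ring
  have hη0 : (0 : ℝ) < η := by rw [hηR]; positivity
  obtain ⟨j, hj⟩ := hd.exists_dist_lt (y x) hη0
  set τ : Test := (s, a, r1, c, r2, 2 * ε, j, η) with hτ
  have hxW : x ∈ Wset φ y d (S.u i) τ := by
    refine ⟨hj, fun g hg hgs => ?_⟩
    have key : ∀ t ∈ Icc (a : ℝ) (f x), g x = t → |φ (y x) g - h t| ≤ ε := by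
      intro t ht hgt
      refine hF g hg _ (update_mem hf ha1 ht) fun w hw => ?_
      by_cases hwx : w = x
      · rw [hwx, update_self, hgt]
      · rw [update_of_ne hwx, hgs w (hs1 w hw hwx), ← hs3 w (hs1 w hw hwx)]
    constructor
    · intro hgx
      have h1 := key a ⟨le_rfl, hl2⟩ hgx
      show |φ (y x) g - r1| ≤ ((2 * ε : ℚ) : ℝ)
      push_cast
      have := abs_sub_le (φ (y x) g) (h a) r1
      linarith
    · intro hgx
      have h1 := key c ⟨hc1.1.le, hc1.2.le⟩ hgx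
      show |φ (y x) g - r2| ≤ ((2 * ε : ℚ) : ℝ)
      push_cast
      have := abs_sub_le (φ (y x) g) (h c) r2
      linarith
  -- eventual properties of the new point
  have hT : Tendsto (fun x' => bump f x' c) (𝓝[<] x) (𝓝 f) := tendsto_bump hf hc1.2.le
  have hTm : ∀ x', bump f x' c ∈ Helly := fun x' => bump_mem hf x' hc01
  have hTφ : ∀ z, Tendsto (fun x' => φ z (bump f x' c)) (𝓝[<] x) (𝓝 (φ z f)) := fun z =>
    tendsto_phi (hφ z) hf (Eventually.of_forall hTm) hT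
  obtain ⟨w0, hw0, hw0'⟩ := (mem_nhdsLT_iff_exists_Ioo_subset (a := x)).1
    (ha1.and (hs2.filter_mono nhdsWithin_le_nhds))
  have E0 : ∀ᶠ x' in 𝓝[<] x, x' ∈ Ioo w0 x := Ioo_mem_nhdsLT hw0
  -- left values for old points
  have Eleft_ne : ∀ k, k ≤ n → k ≠ i → ∀ᶠ x' in 𝓝[<] x,
      ∀ᶠ w in 𝓝[<] (S.x k), bump f x' c w = A k := by
    intro k hk hki
    have hne : S.x k ≠ x := fun h' => hki (hS.hinj k hk i hin h')
    rcases lt_or_gt_of_ne hne with hlt | hgt
    · filter_upwards [Ioo_mem_nhdsLT hlt] with x' hx'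
      filter_upwards [hA1 k hk, self_mem_nhdsWithin] with w hw1 hw2
      rw [bump_eq_of_lt f c (lt_trans hw2 hx'.1)]; exact hw1
    · refine Eventually.of_forall fun x' => ?_
      filter_upwards [hA1 k hk, Ioo_mem_nhdsLT hgt] with w hw1 hw2
      rw [bump_eq_of_ge hf x' hc1.2.le hw2.1.le]; exact hw1
  have Eleft_eq : ∀ᶠ x' in 𝓝[<] x, ∀ᶠ w in 𝓝[<] x, bump f x' c w = c := by
    filter_upwards [E0] with x' hx'
    filter_upwards [Ioo_mem_nhdsLT hx'.2] with w hw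
    have : f w = a := (hw0' ⟨hx'.1.trans hw.1, hw.2⟩).1
    simp only [bump, if_pos hw.1.le, this]
    exact max_eq_right hc1.1.le
  have E1 : ∀ k, k ≤ n → ∀ᶠ x' in 𝓝[<] x, ∃ a' : ℚ,
      (∀ᶠ w in 𝓝[<] (S.x k), bump f x' c w = a') ∧
      S.δ k < |φ (y (S.x k)) (bump f x' c) - φ (y (S.x k)) (update (bump f x' c) (S.x k) a')| := by
    intro k hk
    by_cases hki : k = i
    · rw [hki]
      have hT2 : Tendsto (fun x' => φ (y x) (update (bump f x' c) x c)) (𝓝[<] x) (𝓝 (h c)) := by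
        refine tendsto_phi (hφ _) (update_mem hf ha1 ⟨hc1.1.le, hc1.2.le⟩) ?_
          (hT.update x tendsto_const_nhds)
        filter_upwards [Eleft_eq] with x' hx'
        exact update_mem (hTm x') hx' ⟨le_rfl, (left_facts (hTm x') hx').2.1⟩
      have := (((hTφ (y x)).sub hT2).abs).eventually (lt_mem_nhds hc3)
      filter_upwards [Eleft_eq, this] with x' h1 h2
      exact ⟨c, h1, h2⟩
    · have hT2 : Tendsto (fun x' => φ (y (S.x k)) (update (bump f x' c) (S.x k) (A k))) (𝓝[<] x)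
          (𝓝 (φ (y (S.x k)) (update f (S.x k) (A k)))) := by
        refine tendsto_phi (hφ _)
          (update_mem hf (hA1 k hk) ⟨le_rfl, (left_facts hf (hA1 k hk)).2.1⟩) ?_
          (hT.update (S.x k) tendsto_const_nhds)
        filter_upwards [Eleft_ne k hk hki] with x' hx'
        exact update_mem (hTm x') hx' ⟨le_rfl, (left_facts (hTm x') hx').2.1⟩
      have := (((hTφ (y (S.x k))).sub hT2).abs).eventually (lt_mem_nhds (hA2 k hk))
      filter_upwards [Eleft_ne k hk hki, this] with x' h1 h2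
      exact ⟨A k, h1, h2⟩
  have E2 : ∀ k, k < n → ∀ᶠ x' in 𝓝[<] x,
      S.δ (Nat.unpair k).1 < |φ (y (S.x (k + 1))) (bump f x' c) -
        φ (y (S.x (Nat.unpair k).1)) (bump f x' c)| := fun k hk =>
    (((hTφ _).sub (hTφ _)).abs).eventually (lt_mem_nhds (hS.hchild k hk).1)
  have E3 : ∀ᶠ x' in 𝓝[<] x, |φ (y x) (bump f x' c) - φ (y x) f| < ε := by
    have := (((hTφ (y x)).sub (tendsto_const_nhds (x := φ (y x) f))).abs)
    rw [sub_self, abs_zero] at this
    exact this.eventually (gt_mem_nhds hε0)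
  have E1' := (eventually_all_finite (finite_Iic n)).2 E1
  have E2' := (eventually_all_finite (finite_Iio n)).2 E2
  obtain ⟨w1, hw1, hw1'⟩ := (mem_nhdsLT_iff_exists_Ioo_subset (a := x)).1
    (E0.and (E1'.and (E2'.and E3)))
  have hunc := hS.hgood i hin τ hxW w1 hw1
  have hZ : ({z | ¬ Good φ y d f z} ∪ ⋃ k ∈ Iic n, D (S.x k)).Countable :=
    (countable_bad φ y d f).union ((finite_Iic n).countable.biUnion fun k _ => hDc _)
  obtain ⟨x', ⟨hx'W, hx'I⟩, hx'Z⟩ : ∃ x' ∈ Wset φ y d (S.u i) τ ∩ Ioo w1 x,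
      x' ∉ ({z | ¬ Good φ y d f z} ∪ ⋃ k ∈ Iic n, D (S.x k)) := by
    by_contra hcon
    push Not at hcon
    exact hunc (hZ.mono hcon)
  obtain ⟨hx'0, hx'1, hx'2, hx'3⟩ := hw1' hx'I
  have hx'good : Good φ y d f x' := by
    by_contra hcon; exact hx'Z (Or.inl hcon)
  have hx'D : ∀ k, k ≤ n → x' ∉ D (S.x k) := fun k hk hcon =>
    hx'Z (Or.inr (mem_iUnion₂.2 ⟨k, hk, hcon⟩))
  have hx'ne : ∀ k, k ≤ n → S.x k ≠ x' := fun k hk hcon => hx'D k hk (hcon ▸ hDx _)
  set f' := bump f x' c with hf'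
  have hf'm : f' ∈ Helly := hTm x'
  have hf'left : ∀ᶠ w in 𝓝[<] x', f' w = a := by
    filter_upwards [Ioo_mem_nhdsLT hx'0.1] with w hw
    rw [hf', bump_eq_of_lt f c hw.2]
    exact (hw0' ⟨hw.1, hw.2.trans hx'0.2⟩).1
  have hf'x' : f' x' = c := by
    have : f x' = a := (hw0' hx'0).1
    simp only [hf', bump, if_pos le_rfl, this]
    exact max_eq_right hc1.1.le
  have hf'G : ∀ w ∈ Gset s, f' w = f w ∧ w ≠ x' := by
    intro w hw
    have hnot : w ∉ Ioo w0 x := fun hc' => (hw0' hc').2 hw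
    refine ⟨?_, fun hc' => hnot (hc' ▸ hx'0)⟩
    rcases lt_or_ge w x with h1 | h1
    · have : w < x' := by
        by_contra h2
        exact hnot ⟨hx'0.1.trans_le (not_lt.1 h2), h1⟩
      exact bump_eq_of_lt f c this
    · exact bump_eq_of_ge hf x' hc1.2.le h1
  have hv2 : |φ (y x') f' - r2| ≤ 2 * ε := by
    have := (hx'W.2 f' hf'm fun w hw => by rw [(hf'G w hw).1]; exact hs3 w hw).2 hf'x'
    simpa [hτ] using this
  have hv1 : |φ (y x') (update f' x' a) - r1| ≤ 2 * ε := by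
    have := (hx'W.2 (update f' x' a)
      (update_mem hf'm hf'left ⟨le_rfl, (left_facts hf'm hf'left).2.1⟩) fun w hw => by
        rw [update_of_ne (hf'G w hw).2, (hf'G w hw).1]; exact hs3 w hw).1 (update_self _ _ _)
    simpa [hτ] using this
  have hdist : dist (y x') (y x) < 1 / ((n : ℝ) + 1) := by
    have h1 : dist (y x') (d j) < η := hx'W.1
    have h2 := dist_triangle_right (y x') (y x) (d j)
    have h3 : (η : ℝ) + η = 1 / ((n : ℝ) + 1) := by rw [hηR]; field_simp; ring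
    linarith
  have hold : ∀ k, k ≤ n → k ≠ n + 1 := fun k hk => by omega
  refine ⟨⟨f', update S.x (n + 1) x', update S.u (n + 1) f, update S.δ (n + 1) ε⟩, ?_,
    le_bump f x' c, fun k hk => ⟨update_of_ne (hold k hk) _ _, update_of_ne (hold k hk) _ _⟩⟩
  refine ⟨hf'm, ?_, ?_, ?_, ?_, ?_, ?_⟩
  · intro k hk
    rcases Nat.le_succ_iff.1 hk with hk | hk
    · simp only [update_of_ne (hold k hk)]; exact hS.hδ k hk
    · subst hk; simp only [update_self]; exact hε0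
  · intro k hk l hl
    rcases Nat.le_succ_iff.1 hk with hk | hk <;> rcases Nat.le_succ_iff.1 hl with hl | hl
    · simp only [update_of_ne (hold k hk), update_of_ne (hold l hl)]; exact hS.hinj k hk l hl
    · subst hl; simp only [update_of_ne (hold k hk), update_self]
      exact fun hc' => (hx'ne k hk hc').elim
    · subst hk; simp only [update_of_ne (hold l hl), update_self]
      exact fun hc' => (hx'ne l hl hc'.symm).elim
    · intro _; rw [hk, hl]
  · intro k hk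
    rcases Nat.le_succ_iff.1 hk with hk | hk
    · simp only [update_of_ne (hold k hk)]; exact hS.hgood k hk
    · subst hk; simp only [update_self]; exact hx'good
  · intro k hk
    rcases Nat.le_succ_iff.1 hk with hk | hk
    · simp only [update_of_ne (hold k hk)]; exact hx'1 k hk
    · subst hk; simp only [update_self]
      refine ⟨a, hf'left, ?_⟩
      have t1 := abs_sub_le (h c) r2 (h a)
      have t2 := abs_sub_le (r2 : ℝ) (φ (y x') f') (h a)
      have t3 := abs_sub_le (φ (y x') f') (φ (y x') (update f' x' a)) (h a)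
      have t4 := abs_sub_le (φ (y x') (update f' x' a)) r1 (h a)
      rw [abs_sub_comm] at hv2 hr1
      linarith
  · intro k hk F' hF'
    rcases Nat.le_succ_iff.1 hk with hk | hk
    · simp only [update_of_ne (hold k hk)] at hF' ⊢
      obtain ⟨s', h1, h2, h3⟩ := hS.hpat k hk F' hF'
      obtain ⟨p, q, hp, hq, hpq⟩ := exists_rat_interval F' x'
      refine ⟨(p, q, c) :: s', fun w hw hwk => ?_, ?_, fun w hw => ?_⟩
      · exact mem_Gset_cons.2 ⟨hpq w hw fun hc' => hx'D k hk (hc' ▸ hF' hw), h1 w hw hwk⟩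
      · filter_upwards [h2] with w hw hc' using hw (mem_Gset_cons.1 hc').2
      · obtain ⟨h4, h5⟩ := mem_Gset_cons.1 hw
        exact bump_eq_pat hp hq h4 (h3 w h5)
    · subst hk; simp only [update_self] at hF' ⊢
      obtain ⟨p, q, hp, hq, hpq⟩ := exists_rat_interval F' x'
      refine ⟨[(p, q, c)], fun w hw hwk => ?_, ?_, fun w hw => ?_⟩
      · exact mem_Gset_cons.2 ⟨hpq w hw hwk, fun e he => by simp at he⟩
      · filter_upwards [Ioo_mem_nhds hp hq] with w hw hc' using (mem_Gset_cons.1 hc').1 hw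
      · exact bump_eq_pat hp hq (mem_Gset_cons.1 hw).1 rfl
  · intro k hk
    rcases Nat.lt_succ_iff_lt_or_eq.1 hk with hk | hk
    · have h1 : k + 1 ≠ n + 1 := by omega
      have h2 : (Nat.unpair k).1 ≠ n + 1 := hold _ ((Nat.unpair_left_le k).trans hk.le)
      simp only [update_of_ne h1, update_of_ne h2]
      exact ⟨hx'2 k hk, (hS.hchild k hk).2⟩
    · subst hk
      have h2 : (Nat.unpair k).1 ≠ k + 1 := hold _ hin
      simp only [update_self, update_of_ne h2]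
      refine ⟨?_, hdist⟩
      show S.δ i < |φ (y x') f' - φ (y x) f'|
      have t1 := abs_sub_le (φ (y x) f) (φ (y x) f') (h c)
      have t2 := abs_sub_le (φ (y x) f') (φ (y x') f') (h c)
      have t3 := abs_sub_le (φ (y x') f') r2 (h c)
      rw [abs_sub_comm] at hx'3 hr2
      rw [abs_sub_comm (φ (y x) f') (φ (y x') f')] at t2
      linarith

/-- Main combinatorial theorem: a family of continuous functions on the Helly space, indexed by a
separable pseudometric space and separating uncountably many of the basic pairs of step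
functions, has a point of the Helly space at which it is nowhere continuous on some set. -/
theorem core [TopologicalSpace.SeparableSpace Y] {φ : Y → (ℝ → ℝ) → ℝ}
    (hφ : ∀ z, ContinuousOn (φ z) Helly) {L : Set ℝ} (hL : ¬ L.Countable)
    (hsep : ∀ x ∈ L, ∃ z, φ z (bump 0 x 1) ≠ φ z (update (bump 0 x 1) x 0)) :
    ∃ g ∈ Helly, ∃ B : Set Y, B.Nonempty ∧
      ∀ b ∈ B, ¬ ContinuousWithinAt (fun z => φ z g) B b := by
  classical
  have hLne : L.Nonempty := by
    by_contra hcon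
    rw [not_nonempty_iff_eq_empty] at hcon
    exact hL (hcon ▸ countable_empty)
  obtain ⟨x00, hx00⟩ := hLne
  have : Nonempty Y := ⟨(hsep x00 hx00).choose⟩
  choose! y hy using hsep
  set d : ℕ → Y := TopologicalSpace.denseSeq Y
  have hd : DenseRange d := TopologicalSpace.denseRange_denseSeq Y
  have hdet : ∀ (x : ℝ) (m : ℕ), ∃ F : Finset ℝ, ∀ g ∈ Helly, ∀ g' ∈ Helly,
      (∀ w ∈ F, g w = g' w) → |φ (y x) g - φ (y x) g'| ≤ 1 / ((m : ℝ) + 1) := fun x m =>
    exists_determining (hφ (y x)) Nat.one_div_pos_of_nat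
  choose Fd hFd using hdet
  set D : ℝ → Set ℝ := fun x => insert x (⋃ m : ℕ, (Fd x m : Set ℝ)) with hD
  have hDc : ∀ x, (D x).Countable := fun x =>
    (countable_iUnion fun m => (Fd x m).countable_toSet).insert x
  have hDx : ∀ x, x ∈ D x := fun x => mem_insert _ _
  have hDdet : ∀ x, ∀ ε : ℝ, 0 < ε → ∃ F : Finset ℝ, (F : Set ℝ) ⊆ D x ∧
      ∀ g ∈ Helly, ∀ g' ∈ Helly, (∀ w ∈ F, g w = g' w) → |φ (y x) g - φ (y x) g'| ≤ ε := by
    intro x ε hε
    obtain ⟨m, hm⟩ := exists_nat_one_div_lt hε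
    exact ⟨Fd x m, (subset_iUnion (fun m => (Fd x m : Set ℝ)) m).trans (subset_insert _ _),
      fun g hg g' hg' h => (hFd x m g hg g' hg' h).trans hm.le⟩
  -- the initial stage
  have h0 : (0 : ℝ → ℝ) ∈ Helly := ⟨monotone_const, fun _ => ⟨le_rfl, zero_le_one⟩⟩
  obtain ⟨x0, hx0L, hx0g⟩ : ∃ x0 ∈ L, Good φ y d 0 x0 := by
    by_contra hcon
    push Not at hcon
    exact hL ((countable_bad φ y d 0).mono hcon)
  set δ0 : ℝ := |φ (y x0) (bump 0 x0 1) - φ (y x0) (update (bump 0 x0 1) x0 0)| / 2 with hδ0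
  have hδ0pos : 0 < |φ (y x0) (bump 0 x0 1) - φ (y x0) (update (bump 0 x0 1) x0 0)| :=
    abs_pos.2 (sub_ne_zero.2 (hy x0 hx0L))
  set S0 : St := ⟨bump 0 x0 1, fun _ => x0, fun _ => 0, fun _ => δ0⟩ with hS0
  have hI0 : Inv φ y d D 0 S0 := by
    refine ⟨bump_mem h0 x0 ⟨zero_le_one, le_rfl⟩, fun _ _ => ?_, fun k hk l hl _ => by omega,
      fun _ _ => hx0g, fun _ _ => ⟨0, ?_, ?_⟩, fun _ _ F _ => ?_, fun k hk => by omega⟩
    · show 0 < δ0
      rw [hδ0]; linarith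
    · filter_upwards [self_mem_nhdsWithin] with w hw
      show bump 0 x0 1 w = ((0 : ℚ) : ℝ)
      rw [bump_eq_of_lt _ _ hw]; simp
    · show δ0 < |φ (y x0) (bump 0 x0 1) - φ (y x0) (update (bump 0 x0 1) x0 ((0 : ℚ) : ℝ))|
      rw [Rat.cast_zero, hδ0]; linarith
    · obtain ⟨p, q, hp, hq, hpq⟩ := exists_rat_interval F x0
      refine ⟨[(p, q, 1)], fun w hw hwk => ?_, ?_, fun w hw => ?_⟩
      · exact mem_Gset_cons.2 ⟨hpq w hw hwk, fun e he => by simp at he⟩
      · filter_upwards [Ioo_mem_nhds hp hq] with w hw hc' using (mem_Gset_cons.1 hc').1 hw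
      · have := bump_eq_pat (f := 0) (u := 0) (s := []) (c := 1) hp hq (mem_Gset_cons.1 hw).1 rfl
        rw [Rat.cast_one] at this
        exact this
  choose! nxt hnxt using step hφ hd hDc hDx hDdet
  set sq : ℕ → St := fun n => Nat.rec S0 (fun n S => nxt n S) n with hsq
  have hsucc : ∀ n, sq (n + 1) = nxt n (sq n) := fun n => rfl
  have hI : ∀ n, Inv φ y d D n (sq n) := by
    intro n
    induction n with
    | zero => exact hI0
    | succ n ih => rw [hsucc]; exact (hnxt n _ ih).1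
  have hmono : Monotone fun n => (sq n).f :=
    monotone_nat_of_le_succ fun n => by
      show (sq n).f ≤ (sq (n + 1)).f
      rw [hsucc]; exact (hnxt n _ (hI n)).2.1
  have hstab : ∀ k n, k ≤ n → (sq n).x k = (sq k).x k ∧ (sq n).δ k = (sq k).δ k := by
    intro k n hkn
    induction n, hkn using Nat.le_induction with
    | base => exact ⟨rfl, rfl⟩
    | succ n hkn ih =>
      have := (hnxt n _ (hI n)).2.2 k hkn
      rw [hsucc, this.1, this.2]; exact ih
  set X : ℕ → ℝ := fun k => (sq k).x k with hX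
  set Δ : ℕ → ℝ := fun k => (sq k).δ k with hΔ
  set g : ℝ → ℝ := fun w => ⨆ n, (sq n).f w with hg
  have hlim : Tendsto (fun n => (sq n).f) atTop (𝓝 g) := by
    rw [tendsto_pi_nhds]
    intro w
    refine tendsto_atTop_ciSup (fun a b hab => hmono hab w) ⟨1, ?_⟩
    rintro _ ⟨n, rfl⟩
    exact ((hI n).hf.2 w).2
  have hgH : g ∈ Helly :=
    isClosed_Helly.mem_of_tendsto hlim (Eventually.of_forall fun n => (hI n).hf)
  have hφlim : ∀ z, Tendsto (fun n => φ z (sq n).f) atTop (𝓝 (φ z g)) := fun z =>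
    (hφ z g hgH).tendsto.comp
      (tendsto_nhdsWithin_iff.2 ⟨hlim, Eventually.of_forall fun n => (hI n).hf⟩)
  have hfin : ∀ k, Δ (Nat.unpair k).1 ≤ |φ (y (X (k + 1))) g - φ (y (X (Nat.unpair k).1)) g| ∧
      dist (y (X (k + 1))) (y (X (Nat.unpair k).1)) < 1 / ((k : ℝ) + 1) := by
    intro k
    have hall : ∀ n, k < n →
        Δ (Nat.unpair k).1 < |φ (y (X (k + 1))) (sq n).f - φ (y (X (Nat.unpair k).1)) (sq n).f| ∧
        dist (y (X (k + 1))) (y (X (Nat.unpair k).1)) < 1 / ((k : ℝ) + 1) := by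
      intro n hn
      have h1 := (hI n).hchild k hn
      have h2 := hstab (k + 1) n hn
      have h3 := hstab (Nat.unpair k).1 n ((Nat.unpair_left_le k).trans hn.le)
      rw [h2.1, h3.1, h3.2] at h1
      exact h1
    refine ⟨?_, (hall (k + 1) (Nat.lt_succ_self k)).2⟩
    refine ge_of_tendsto (((hφlim _).sub (hφlim _)).abs) ?_
    filter_upwards [eventually_gt_atTop k] with n hn using (hall n hn).1.le
  refine ⟨g, hgH, range (fun k => y (X k)), range_nonempty _, ?_⟩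
  rintro _ ⟨k0, rfl⟩ hcont
  have hpos : 0 < Δ k0 := (hI k0).hδ k0 le_rfl
  have hT : Tendsto (fun m => y (X (Nat.pair k0 m + 1))) atTop (𝓝 (y (X k0))) := by
    rw [tendsto_iff_dist_tendsto_zero]
    refine squeeze_zero (fun _ => dist_nonneg) (fun m => ?_) tendsto_one_div_add_atTop_nhds_zero_nat
    have h1 := (hfin (Nat.pair k0 m)).2
    rw [Nat.unpair_pair] at h1
    refine h1.le.trans (one_div_le_one_div_of_le (by positivity) ?_)
    have : (m : ℝ) ≤ (Nat.pair k0 m : ℕ) := by exact_mod_cast Nat.right_le_pair k0 m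
    linarith
  have hT2 := hcont.tendsto.comp (tendsto_nhdsWithin_iff.2
    ⟨hT, Eventually.of_forall fun m => mem_range_self (Nat.pair k0 m + 1)⟩)
  have hT3 := (hT2.sub (tendsto_const_nhds (x := φ (y (X k0)) g))).abs
  rw [sub_self, abs_zero] at hT3
  obtain ⟨m, hm⟩ := (hT3.eventually (gt_mem_nhds hpos)).exists
  have h1 := (hfin (Nat.pair k0 m)).1
  rw [Nat.unpair_pair] at h1
  exact absurd hm (not_lt.2 h1)

end Pool.Agent.Lib.MP_6d476a_gt
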