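import Mathlib

set_option autoImplicit false

open Set Filter Topology Function

namespace Pool.Agent.Lib.MP_6d476a_gt.Light

/-- Every non-empty set has a relatively open non-empty part on which `h` is continuous. -/
def WD {Z W : Type} [TopologicalSpace Z] [TopologicalSpace W] (h : Z → W) : Prop :=
  ∀ A : Set Z, A.Nonempty → ∃ U, IsOpen U ∧ (U ∩ A).Nonempty ∧ ContinuousOn h (U ∩ A)

section general

variable {Z Z' W : Type} [TopologicalSpace Z] [TopologicalSpace Z'] [TopologicalSpace W]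

theorem wd_of_sc [RegularSpace W] {h : Z → W}
    (hs : ∀ A : Set Z, A.Nonempty → ∃ a ∈ A, ContinuousWithinAt h A a) : WD h := by
  intro A hA
  by_contra hcon
  push Not at hcon
  let D : Set Z := {a ∈ A | ¬ ContinuousWithinAt h A a}
  have hD : ∀ U, IsOpen U → (U ∩ A).Nonempty → (U ∩ D).Nonempty := by
    intro U hU hne
    by_contra h2
    refine hcon U hU hne fun a ha => ?_
    have : ContinuousWithinAt h A a := by
      by_contra h3
      exact h2 ⟨a, ha.1, ha.2, h3⟩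
    exact this.mono inter_subset_right
  obtain ⟨x, hx, hc⟩ := hs D (by simpa using hD univ isOpen_univ (by simpa using hA))
  refine hx.2 ?_
  refine (closed_nhds_basis (h x)).tendsto_right_iff.2 fun V hV => ?_
  obtain ⟨O, hO, hxO, hOV⟩ := mem_nhdsWithin.1 (hc hV.1)
  refine mem_nhdsWithin.2 ⟨O, hO, hxO, fun a ha => ?_⟩
  by_cases hd : a ∈ D
  · exact hOV ⟨ha.1, hd⟩
  · have hca : ContinuousWithinAt h A a := by
      by_contra h3
      exact hd ⟨ha.2, h3⟩
    by_contra hnot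
    obtain ⟨O', hO', haO', hO'V⟩ := mem_nhdsWithin.1 (hca (hV.2.isOpen_compl.mem_nhds hnot))
    obtain ⟨b, hb1, hb2⟩ := hD (O ∩ O') (hO.inter hO') ⟨a, ⟨ha.1, haO'⟩, ha.2⟩
    exact hO'V ⟨hb1.2, hb2.1⟩ (hOV ⟨hb1.1, hb2⟩)

theorem WD.comp {h : Z → W} (hw : WD h) {p : Z' → Z} (hp : Continuous p) : WD (h ∘ p) := by
  intro A hA
  obtain ⟨U, hU, ⟨_, hx, a, ha, rfl⟩, hc⟩ := hw (p '' A) (hA.image p)
  exact ⟨p ⁻¹' U, hU.preimage hp, ⟨a, hx, ha⟩,
    hc.comp hp.continuousOn fun b hb => ⟨hb.1, b, hb.2, rfl⟩⟩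

theorem wd_fin {h : ℕ → Z → W} (hw : ∀ i, WD (h i)) (k : ℕ) {A : Set Z} (hA : A.Nonempty) :
    ∃ U, IsOpen U ∧ (U ∩ A).Nonempty ∧ ∀ i < k, ContinuousOn (h i) (U ∩ A) := by
  induction k with
  | zero => exact ⟨univ, isOpen_univ, by simpa using hA, by simp⟩
  | succ k ih =>
    obtain ⟨U, hU, hne, hc⟩ := ih
    obtain ⟨V, hV, hne', hc'⟩ := hw k _ hne
    refine ⟨V ∩ U, hV.inter hU, by rwa [inter_assoc], fun i hi => ?_⟩
    rcases Nat.lt_succ_iff_lt_or_eq.1 hi with h1 | rfl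
    · exact (hc i h1).mono fun a ha => ⟨ha.1.2, ha.2⟩
    · rwa [inter_assoc]

theorem WD.sc {h : Z → W} (hw : WD h) (A : Set Z) (hA : A.Nonempty) :
    ∃ a ∈ A, ContinuousWithinAt h A a := by
  obtain ⟨U, hU, ⟨a, ha⟩, hc⟩ := hw A hA
  refine ⟨a, ha.2, (hc a ha).mono_of_mem_nhdsWithin ?_⟩
  exact mem_nhdsWithin.2 ⟨U, hU, ha.1, subset_rfl⟩

theorem WD.measurable [SecondCountableTopology Z] [MeasurableSpace Z] [BorelSpace Z]
    [MeasurableSpace W] [BorelSpace W] {h : Z → W} (hw : WD h) : Measurable h := by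
  intro s hs
  let 𝒰 : Set (Set Z) := {U | IsOpen U ∧ MeasurableSet (h ⁻¹' s ∩ U)}
  obtain ⟨𝒱, h1, h2, h3⟩ := TopologicalSpace.isOpen_sUnion_countable 𝒰 fun U hU => hU.1
  have hG : IsOpen (⋃₀ 𝒰) := isOpen_sUnion fun U hU => hU.1
  have hm : MeasurableSet (h ⁻¹' s ∩ ⋃₀ 𝒰) := by
    rw [← h3, sUnion_eq_biUnion, inter_iUnion₂]
    exact MeasurableSet.biUnion h1 fun U hU => (h2 hU).2
  by_cases hF : (⋃₀ 𝒰)ᶜ.Nonempty
  · obtain ⟨V, hV, ⟨a, ha⟩, hc⟩ := hw _ hF
    exfalso
    refine ha.2 ⟨V, ⟨hV, ?_⟩, ha.1⟩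
    have hms : MeasurableSet (V ∩ (⋃₀ 𝒰)ᶜ) := hV.measurableSet.inter hG.measurableSet.compl
    have e : h ⁻¹' s ∩ V = (h ⁻¹' s ∩ ⋃₀ 𝒰) ∩ V ∪
        Subtype.val '' ((fun x : (V ∩ (⋃₀ 𝒰)ᶜ : Set Z) => h x.1) ⁻¹' s) := by
      ext x
      constructor
      · intro hx
        by_cases hx2 : x ∈ ⋃₀ 𝒰
        · exact Or.inl ⟨⟨hx.1, hx2⟩, hx.2⟩
        · exact Or.inr ⟨⟨x, hx.2, hx2⟩, hx.1, rfl⟩
      · rintro (hx | ⟨y, hy, rfl⟩)
        · exact ⟨hx.1.1, hx.2⟩
        · exact ⟨hy, y.2.1⟩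
    rw [e]
    refine (hm.inter hV.measurableSet).union (hms.subtype_image ?_)
    exact (continuousOn_iff_continuous_domRestrict.1 hc).measurable hs
  · rw [not_nonempty_iff_eq_empty, compl_empty_iff] at hF
    simpa [hF] using hm

end general

/-- Truncation of a real number to `[-1, 1]`. -/
noncomputable def clamp (t : ℝ) : ℝ := max (-1) (min 1 t)

theorem continuous_clamp : Continuous clamp :=
  continuous_const.max (continuous_const.min continuous_id)

theorem clamp_eq {s t : ℝ} (hs : 1 ≤ |s|) (ht : 1 ≤ |t|) (h : |s - t| < 2) :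
    clamp s = clamp t := by
  unfold clamp
  rw [abs_lt] at h
  rcases le_abs'.1 hs with h1 | h1 <;> rcases le_abs'.1 ht with h2 | h2
  · rw [min_eq_right (by linarith), min_eq_right (by linarith), max_eq_left h1, max_eq_left h2]
  · linarith
  · linarith
  · rw [min_eq_left h1, min_eq_left h2]

theorem clamp_baire {Z : Type} [MetricSpace Z] [CompleteSpace Z] {h : Z → ℝ} {u : ℕ → Z → ℝ}
    (hu : ∀ n, Continuous (u n)) (ht : ∀ z, Tendsto (fun n => u n z) atTop (𝓝 (h z)))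
    {A : Set Z} (hA : A.Nonempty) (h1 : ∀ a ∈ A, 1 ≤ |h a|) :
    ∃ U, IsOpen U ∧ (U ∩ A).Nonempty ∧ ContinuousOn (fun z => clamp (h z)) (U ∩ A) := by
  have hS : IsClosed (closure A) := isClosed_closure
  have : CompleteSpace (closure A) := hS.completeSpace_coe
  have : Nonempty (closure A) := hA.closure.to_subtype
  let F : ℕ → Set (closure A) := fun n => ⋂ m, ⋂ _ : n ≤ m, {z | |u m z.1 - u n z.1| ≤ 1 / 2}
  have hF : ∀ n, IsClosed (F n) := fun n => isClosed_iInter fun m => isClosed_iInter fun _ =>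
    isClosed_le (((hu m).comp continuous_subtype_val).sub
      ((hu n).comp continuous_subtype_val)).abs continuous_const
  have hU : ⋃ n, F n = univ := by
    refine eq_univ_of_forall fun z => ?_
    obtain ⟨n, hn⟩ := Metric.cauchySeq_iff'.1 (ht z.1).cauchySeq (1 / 2) (by norm_num)
    refine mem_iUnion.2 ⟨n, mem_iInter₂.2 fun m hm => ?_⟩
    exact (hn m hm).le
  obtain ⟨n, z, hz⟩ := nonempty_interior_of_iUnion_of_closed hF hU
  obtain ⟨O, hO, hOe⟩ := isOpen_induced_iff.1 (isOpen_interior (s := F n))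
  have hzO : z.1 ∈ O := by
    have : z ∈ Subtype.val ⁻¹' O := hOe ▸ hz
    exact this
  have hV : IsOpen {w | |u n w - u n z.1| < 1 / 4} :=
    isOpen_lt ((hu n).sub continuous_const).abs continuous_const
  have hb : ∀ a ∈ (O ∩ {w | |u n w - u n z.1| < 1 / 4}) ∩ A, |h a - u n z.1| < 1 := by
    intro a ha
    have a1 : (⟨a, subset_closure ha.2⟩ : closure A) ∈ F n := by
      refine interior_subset ?_
      rw [← hOe]
      exact ha.1.1
    have a2 : |h a - u n a| ≤ 1 / 2 := by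
      refine le_of_tendsto ((ht a).sub_const (u n a)).abs ?_
      filter_upwards [eventually_ge_atTop n] with m hm
      exact mem_iInter₂.1 a1 m hm
    have a3 : |u n a - u n z.1| < 1 / 4 := ha.1.2
    have := abs_sub_le (h a) (u n a) (u n z.1)
    linarith
  obtain ⟨a, ha⟩ := mem_closure_iff.1 z.2 _ (hO.inter hV) ⟨hzO, by simp⟩
  refine ⟨_, hO.inter hV, ⟨a, ha⟩, (continuousOn_const (c := clamp (h a))).congr fun b hb' => ?_⟩
  refine clamp_eq (h1 b hb'.2) (h1 a ha.2) ?_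
  have a1 := hb a ha
  have a2 := hb b hb'
  have := abs_sub_le (h b) (u n z.1) (h a)
  rw [abs_sub_comm (u n z.1)] at this
  linarith

/-- The first `k` values of `g` along `z`. -/
noncomputable def tr (k : ℕ) (z : ℕ → ℕ → ℕ) (g : (ℕ → ℕ) → ℝ) : ℕ → EReal :=
  fun i => if i < k then ((g (z i) : ℝ) : EReal) else 0

/-- Codes of functions of finitely many coordinates. -/
abbrev Code : Type := ℕ × (ℕ → ℕ → ℕ) × C(ℕ → EReal, ℝ)

/-- The value at `g` of the function coded by `y`. -/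
noncomputable def ev (g : (ℕ → ℕ) → ℝ) (y : Code) : ℝ := y.2.2 (tr y.1 y.2.1 g)

theorem continuous_tr (k : ℕ) (z : ℕ → ℕ → ℕ) : Continuous (tr k z) := by
  refine continuous_pi fun i => ?_
  unfold tr
  split_ifs
  · exact continuous_coe_real_ereal.comp (continuous_apply _)
  · exact continuous_const

theorem continuous_ev_left (y : Code) : Continuous fun g => ev g y :=
  y.2.2.continuous.comp (continuous_tr _ _)

theorem continuousOn_ev {g : (ℕ → ℕ) → ℝ} {s : Set Code} {k : ℕ} (hk : ∀ y ∈ s, y.1 = k)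
    (hc : ∀ i < k, ContinuousOn (fun y : Code => g (y.2.1 i)) s) : ContinuousOn (ev g) s := by
  have h1 : ContinuousOn (fun y : Code => tr k y.2.1 g) s := by
    refine continuousOn_pi.2 fun i => ?_
    unfold tr
    split_ifs with hi
    · exact continuous_coe_real_ereal.comp_continuousOn (hc i hi)
    · exact continuousOn_const
  have h2 : ContinuousOn (fun y : Code => y.2.2 (tr k y.2.1 g)) s :=
    continuous_eval.comp_continuousOn
      ((continuous_snd.comp continuous_snd).continuousOn.prodMk h1)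
  refine h2.congr fun y hy => ?_
  unfold ev
  rw [hk y hy]

theorem isOpen_level (k : ℕ) : IsOpen {y : Code | y.1 = k} :=
  (isOpen_discrete {k}).preimage continuous_fst

theorem continuous_coord (i : ℕ) : Continuous fun y : Code => y.2.1 i :=
  (continuous_apply i).comp (continuous_fst.comp continuous_snd)

theorem continuous_ev {g : (ℕ → ℕ) → ℝ} (hg : Continuous g) : Continuous (ev g) := by
  refine continuous_iff_continuousAt.2 fun y => ?_
  refine (continuousOn_ev (s := {w : Code | w.1 = y.1}) (k := y.1) (fun _ h => h)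
    fun i _ => (hg.comp (continuous_coord i)).continuousOn).continuousAt ?_
  exact (isOpen_level _).mem_nhds rfl

theorem wd_ev {g : (ℕ → ℕ) → ℝ} (hg : WD g) : WD (ev g) := by
  rintro A ⟨a, ha⟩
  obtain ⟨U, hU, hne, hc⟩ := wd_fin (h := fun i (y : Code) => g (y.2.1 i))
    (fun i => hg.comp (continuous_coord i)) a.1 (A := {w : Code | w.1 = a.1} ∩ A) ⟨a, rfl, ha⟩
  rw [← inter_assoc] at hne hc
  exact ⟨_, hU.inter (isOpen_level _), hne, continuousOn_ev (fun y hy => hy.1.2) hc⟩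

theorem exists_code {K L : Set ((ℕ → ℕ) → ℝ)} (hK : IsCompact K) (hL : IsCompact L)
    (hd : Disjoint K L) : ∃ y : Code, (∀ a ∈ K, ev a y = 0) ∧ ∀ b ∈ L, ev b y = 1 := by
  obtain ⟨t, ht⟩ := (hK.prod hL).elim_finite_subcover
    (fun x : ℕ → ℕ => {q : ((ℕ → ℕ) → ℝ) × ((ℕ → ℕ) → ℝ) | q.1 x ≠ q.2 x})
    (fun x => isOpen_ne_fun ((continuous_apply x).comp continuous_fst)
      ((continuous_apply x).comp continuous_snd)) (by
      rintro ⟨a, b⟩ ⟨ha, hb⟩
      have : a ≠ b := fun e => disjoint_left.1 hd ha (e ▸ hb)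
      obtain ⟨x, hx⟩ := Function.ne_iff.1 this
      exact mem_iUnion.2 ⟨x, hx⟩)
  let z : ℕ → ℕ → ℕ := fun i => t.toList.getD i 0
  let k := t.toList.length
  have hdis : Disjoint (tr k z '' K) (tr k z '' L) := by
    refine disjoint_left.2 ?_
    rintro _ ⟨a, ha, rfl⟩ ⟨b, hb, e⟩
    obtain ⟨x, hx, hab⟩ := mem_iUnion₂.1 (ht (mk_mem_prod ha hb))
    obtain ⟨i, hi, rfl⟩ := List.getElem_of_mem (Finset.mem_toList.2 hx)
    have e2 := congrFun e i
    have hz : z i = t.toList[i] := List.getD_eq_getElem _ _ hi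
    simp only [tr, k, hi, if_true, hz, EReal.coe_eq_coe_iff] at e2
    exact hab e2.symm
  obtain ⟨φ, h0, h1, -⟩ := exists_continuous_zero_one_of_isClosed
    (hK.image (continuous_tr k z)).isClosed (hL.image (continuous_tr k z)).isClosed hdis
  exact ⟨(k, z, φ), fun a ha => h0 ⟨a, ha, rfl⟩, fun b hb => h1 ⟨b, hb, rfl⟩⟩

end Pool.Agent.Lib.MP_6d476a_gt.Light
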